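import Mathlib

/-!
# The symmetric Mahler conjecture: definitions
-/

namespace Pool.Agent.H706R2.FM

open MeasureTheory Real Set Filter Topology
open scoped RealInnerProductSpace ENNReal

/-- Euclidean space. -/
abbrev E (n : ℕ) := EuclideanSpace ℝ (Fin n)

/-- `z = (x, u)`, thought of as `x + i u ∈ ℂ^n`. -/
abbrev V (n : ℕ) := E n × E n

/-- The polar body. -/
def polar {n : ℕ} (K : Set (E n)) : Set (E n) := {y | ∀ x ∈ K, ⟪x, y⟫ ≤ 1}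

/-! ## Planar part -/

/-- The planar domain. -/
structure Dom (W : Set ℂ) : Prop where
  isOpen : IsOpen W
  zero_mem : (0 : ℂ) ∈ W
  re_lt : ∀ w ∈ W, |w.re| < 1
  vert : ∀ w ∈ W, ∀ t : ℝ, |t| ≤ |w.im| → (⟨w.re, t⟩ : ℂ) ∈ W

/-- A log-subharmonic potential `R` on `W` with a zero of order `p` at `0`, `R → 1` at the
boundary, `Rx, Ru` its partial derivatives, `ρ` its Laplacian. -/
structure Pot (W : Set ℂ) (p : ℕ) (κ : ℝ) (R Rx Ru ρ : ℂ → ℝ) : Prop where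
  hp : 4 ≤ p
  κpos : 0 < κ
  dR : ∀ w ∈ W, HasFDerivAt R (Rx w • Complex.reCLM + Ru w • Complex.imCLM) w
  smRx : ContDiffOn ℝ 1 Rx W
  smRu : ContDiffOn ℝ 1 Ru W
  smρ : ContDiffOn ℝ 1 ρ W
  lap : ∀ w ∈ W, fderiv ℝ Rx w 1 + fderiv ℝ Ru w Complex.I = ρ w
  Rnn : ∀ w ∈ W, 0 ≤ R w
  ρnn : ∀ w ∈ W, 0 ≤ ρ w
  ρpos : ∀ w ∈ W, w ≠ 0 → 0 < ρ w
  cs : ∀ w ∈ W, Rx w ^ 2 + Ru w ^ 2 ≤ R w * ρ w
  proper : ∀ C < 1, IsCompact {w | w ∈ W ∧ R w ≤ C}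
  asR : Tendsto (fun w => R w / ‖w‖ ^ p) (𝓝[≠] 0) (𝓝 κ)
  asρ : Tendsto (fun w => ρ w / ‖w‖ ^ (p - 2)) (𝓝[≠] 0) (𝓝 (p ^ 2 * κ))

/-- The vertical bound. -/
def VBound (W : Set ℂ) (R ρ : ℂ → ℝ) (p : ℕ) (ε : ℝ) : Prop :=
  ∀ w ∈ W, |∫ t in (0:ℝ)..w.im, ρ ⟨w.re, t⟩| ≤ (π / 2) * p * ((1 + ε) * R w + ε)

/-- `f(ζ) = (8/π²) ∑ ζ^{2j+1}/(2j+1)²`. -/
noncomputable def fχ (ζ : ℂ) : ℂ := (8 / (π : ℂ) ^ 2) * ∑' j : ℕ, ζ ^ (2 * j + 1) / (2 * j + 1) ^ 2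

/-- `f'(ζ) = (8/π²) ∑ ζ^{2j}/(2j+1)`. -/
noncomputable def gχ (ζ : ℂ) : ℂ := (8 / (π : ℂ) ^ 2) * ∑' j : ℕ, ζ ^ (2 * j) / (2 * j + 1)

/-- `s = log((1+ζ)/(1-ζ))`. -/
noncomputable def sχ (ζ : ℂ) : ℂ := Complex.log ((1 + ζ) / (1 - ζ))

/-- The domain `W = f(𝔻)` and the inverse function `q` of `f`. -/
structure Inv (W : Set ℂ) (q : ℂ → ℂ) : Prop where
  W_eq : W = fχ '' Metric.ball 0 1
  left : ∀ ζ ∈ Metric.ball (0:ℂ) 1, q (fχ ζ) = ζ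
  isOpen : IsOpen W
  dq : ∀ w ∈ W, HasDerivAt q (gχ (q w))⁻¹ w

/-- `R = |q|^p`. -/
noncomputable def Rq (q : ℂ → ℂ) (p : ℕ) (w : ℂ) : ℝ := ‖q w‖ ^ p

/-- `R_x = p |q|^{p-2} Re (conj q · q')`. -/
noncomputable def Rxq (q : ℂ → ℂ) (p : ℕ) (w : ℂ) : ℝ :=
  p * ‖q w‖ ^ (p - 2) * ((starRingEnd ℂ (q w)) * deriv q w).re

/-- `R_u = -p |q|^{p-2} Im (conj q · q')`. -/
noncomputable def Ruq (q : ℂ → ℂ) (p : ℕ) (w : ℂ) : ℝ :=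
  -(p * ‖q w‖ ^ (p - 2) * ((starRingEnd ℂ (q w)) * deriv q w).im)

/-- `ρ = p² |q|^{p-2} |q'|²`. -/
noncomputable def ρq (q : ℂ → ℂ) (p : ℕ) (w : ℂ) : ℝ :=
  p ^ 2 * ‖q w‖ ^ (p - 2) * ‖deriv q w‖ ^ 2

/-! ## The part in dimension `n` -/

section
variable {n N : ℕ}

/-- `w = l(x) + i l(u)`. -/
noncomputable def wc (l : E n) (z : V n) : ℂ := ⟨⟪l, z.1⟫, ⟪l, z.2⟫⟩

/-- The domain `Ω`. -/
def Om (W : Set ℂ) (l : Fin N → E n) : Set (V n) := {z | ∀ i, wc (l i) z ∈ W}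

/-- `G(z) = ∑ R_i(w_i)`. -/
noncomputable def GG (R : Fin N → ℂ → ℝ) (l : Fin N → E n) (z : V n) : ℝ :=
  ∑ i, R i (wc (l i) z)

/-- The matrix with rows `l_{I k}`. -/
noncomputable def Mx (l : Fin N → E n) (I : Fin n → Fin N) : Matrix (Fin n) (Fin n) ℝ :=
  Matrix.of fun k j => l (I k) j

/-- `D = n! det (∑ ρ_i l_i l_iᵀ)`, as a sum over `n`-tuples. -/
noncomputable def DD (ρ : Fin N → ℂ → ℝ) (l : Fin N → E n) (z : V n) : ℝ :=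
  ∑ I : Fin n → Fin N, (Mx l I).det ^ 2 * ∏ k, ρ (I k) (wc (l (I k)) z)

/-- The sum `T` over tuples (first index `0` special), in dimension `m+1`. -/
noncomputable def TT {m : ℕ} (Rx Ru ρ : Fin N → ℂ → ℝ) (l : Fin N → E (m + 1)) (z : V (m + 1)) :
    ℝ :=
  ∑ I : Fin (m + 1) → Fin N, (∏ k ∈ Finset.univ.erase 0, ρ (I k) (wc (l (I k)) z)) *
    (Mx l I).det *
    (Rx (I 0) (wc (l (I 0)) z) *
        ((Mx l I).updateRow 0 (fun j => ∑ i, Rx i (wc (l i) z) * l i j)).det +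
      Ru (I 0) (wc (l (I 0)) z) *
        ((Mx l I).updateRow 0 (fun j => ∑ i, Ru i (wc (l i) z) * l i j)).det)

/-- All data. -/
structure Data (W : Set ℂ) (p : Fin N → ℕ) (κ : Fin N → ℝ) (R Rx Ru ρ : Fin N → ℂ → ℝ)
    (l : Fin N → E n) : Prop where
  dom : Dom W
  pot : ∀ i, Pot W (p i) (κ i) (R i) (Rx i) (Ru i) (ρ i)
  span : Submodule.span ℝ (range l) = ⊤

end

end Pool.Agent.H706R2.FM
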