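import Pool.Agent.H706R2.FM.Defs

/-!
# The scalar inequality (P4)
-/

namespace Pool.Agent.H706R2.FM

open Real Filter Topology

lemma P4aux_sinh (a : ℝ) : Real.cosh a - 1 ≤ a * Real.sinh a := by
  have h1 : 1 - a ≤ Real.exp (-a) := by
    have := Real.add_one_le_exp (-a)
    linarith
  have h2 : 1 + a ≤ Real.exp a := by
    have := Real.add_one_le_exp a
    linarith
  have h3 : Real.exp a * Real.exp (-a) = 1 := by
    rw [← Real.exp_add, add_neg_cancel, Real.exp_zero]
  have h4 := mul_le_mul_of_nonneg_left h1 (Real.exp_pos a).le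
  have h5 := mul_le_mul_of_nonneg_left h2 (Real.exp_pos (-a)).le
  rw [Real.cosh_eq, Real.sinh_eq]
  nlinarith

lemma P4aux_sin {b : ℝ} (h0 : 0 ≤ b) (h1 : b ≤ π / 2) : 1 - Real.cos b ≤ b * Real.sin b := by
  have hs : 0 ≤ Real.sin b := Real.sin_nonneg_of_nonneg_of_le_pi h0 (by linarith [Real.pi_pos])
  have hc : 0 ≤ Real.cos b := Real.cos_nonneg_of_mem_Icc ⟨by linarith [Real.pi_pos], h1⟩
  have hb : Real.sin b ≤ b := Real.sin_le h0
  have hc1 : Real.cos b ≤ 1 := Real.cos_le_one b
  have h2 := Real.sin_sq_add_cos_sq b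
  nlinarith [mul_le_mul_of_nonneg_right hb hs, mul_nonneg hc (sub_nonneg.2 hc1)]

lemma P4aux_rhs {ε a b : ℝ} (hε : 0 < ε) (h0 : 0 ≤ b) (h1 : b ≤ π / 2) :
    ε * (Real.cosh a - Real.cos b) ≤
      ε * (a * Real.sinh a * Real.cos b + b * Real.cosh a * Real.sin b) := by
  apply mul_le_mul_of_nonneg_left _ hε.le
  have hc : 0 ≤ Real.cos b := Real.cos_nonneg_of_mem_Icc ⟨by linarith [Real.pi_pos], h1⟩
  have hX : 0 < Real.cosh a := Real.cosh_pos a
  have h2 := mul_le_mul_of_nonneg_right (P4aux_sinh a) hc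
  have h3 := mul_le_mul_of_nonneg_left (P4aux_sin h0 h1) hX.le
  nlinarith

lemma P4aux_mul_exp (t : ℝ) : t * Real.exp (-t) ≤ 1 := by
  have h1 : t ≤ Real.exp t := by
    have := Real.add_one_le_exp t
    linarith
  have h2 := mul_le_mul_of_nonneg_right h1 (Real.exp_pos (-t)).le
  rwa [← Real.exp_add, add_neg_cancel, Real.exp_zero] at h2

lemma P4aux_big {a : ℝ} (hX : 2 ≤ Real.cosh a) :
    Real.log (Real.cosh a) * (Real.cosh a / 2) ≤ a * Real.sinh a := by
  have key : ∀ a : ℝ, 0 ≤ a → 2 ≤ Real.cosh a →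
      Real.log (Real.cosh a) * (Real.cosh a / 2) ≤ a * Real.sinh a := by
    intro a ha hX
    have h1 : Real.cosh a ≤ Real.exp a := by
      rw [Real.cosh_eq]
      have : Real.exp (-a) ≤ Real.exp a := Real.exp_le_exp.2 (by linarith)
      linarith
    have h2 : Real.log (Real.cosh a) ≤ a := by
      have := Real.log_le_log (Real.cosh_pos a) h1
      rwa [Real.log_exp] at this
    have h3 : 0 ≤ Real.sinh a := Real.sinh_nonneg_iff.2 ha
    have h4 := Real.cosh_sq a
    have h5 : Real.cosh a / 2 ≤ Real.sinh a := by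
      nlinarith
    have h6 : 0 ≤ Real.log (Real.cosh a) := Real.log_nonneg (by linarith)
    exact mul_le_mul h2 h5 (by linarith) ha
  rcases le_total 0 a with ha | ha
  · exact key a ha hX
  · have h := key (-a) (by linarith) (by rwa [Real.cosh_neg])
    rw [Real.cosh_neg, Real.sinh_neg] at h
    linarith [h]

/-- P4. The scalar inequality. -/
theorem P4_scalar (ε : ℝ) (hε : 0 < ε) : ∃ p₀ : ℕ, ∀ m : ℕ, p₀ ≤ m → ∀ a b : ℝ, 0 ≤ b →
    b ≤ π / 2 →
    (2 * m : ℝ) * ((Real.cosh a - Real.cos b) / (Real.cosh a + Real.cos b)) ^ m * (π ^ 2 / 4) *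
        (1 - (2 / π) * (1 + ε) * b)
      ≤ ε * (a * Real.sinh a * Real.cos b + b * Real.cosh a * Real.sin b) := by
  have hpi := Real.pi_pos
  set b₀ : ℝ := (π / 2) / (1 + ε) with hb₀
  have hb₀pos : 0 < b₀ := by positivity
  have hb₀lt : b₀ < π / 2 := by
    rw [hb₀, div_lt_iff₀ (by linarith)]
    nlinarith
  set cs : ℝ := Real.cos b₀ with hcs
  have hcs0 : 0 < cs := Real.cos_pos_of_mem_Ioo ⟨by linarith, hb₀lt⟩
  have hcs1 : cs ≤ 1 := Real.cos_le_one _
  set X0 : ℝ := Real.exp (π ^ 2 / (ε * cs ^ 2) + 1) with hX0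
  have hX02 : 2 ≤ X0 := by
    have h1 : (0 : ℝ) ≤ π ^ 2 / (ε * cs ^ 2) := by positivity
    have h2 := Real.add_one_le_exp (π ^ 2 / (ε * cs ^ 2) + 1)
    linarith
  set th : ℝ := 1 - 2 * cs / (X0 + 1) with hth
  have hth0 : 0 < th := by
    rw [hth, sub_pos, div_lt_one (by linarith)]
    linarith
  have hth1 : th < 1 := by
    rw [hth]
    have : 0 < 2 * cs / (X0 + 1) := by positivity
    linarith
  have hlim := tendsto_self_mul_const_pow_of_lt_one hth0.le hth1
  have hlim2 : ∀ᶠ m : ℕ in atTop, (m : ℝ) * th ^ m < ε * th / (π ^ 2 / 2) := by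
    apply hlim.eventually (Iio_mem_nhds _)
    positivity
  obtain ⟨p₀, hp₀⟩ := eventually_atTop.1 hlim2
  refine ⟨max p₀ 1, ?_⟩
  intro m hm a b hb0 hb1
  have hm1 : 1 ≤ m := le_trans (le_max_right _ _) hm
  have hmp : p₀ ≤ m := le_trans (le_max_left _ _) hm
  have hX1 : 1 ≤ Real.cosh a := Real.one_le_cosh a
  set X : ℝ := Real.cosh a with hX
  set c : ℝ := Real.cos b with hc
  have hc0 : 0 ≤ c := Real.cos_nonneg_of_mem_Icc ⟨by linarith, hb1⟩
  have hc1 : c ≤ 1 := Real.cos_le_one _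
  have hrhs := P4aux_rhs (a := a) hε hb0 hb1
  have hr0 : 0 ≤ (X - c) / (X + c) := div_nonneg (by linarith) (by linarith)
  have hrm : 0 ≤ ((X - c) / (X + c)) ^ m := pow_nonneg hr0 m
  have hXc : 0 ≤ ε * (X - c) := mul_nonneg hε.le (by linarith)
  have hfac : 0 ≤ (2 * m : ℝ) * ((X - c) / (X + c)) ^ m * (π ^ 2 / 4) := by positivity
  rcases le_or_gt (1 - (2 / π) * (1 + ε) * b) 0 with hneg | hpos
  · calc _ ≤ (0 : ℝ) := mul_nonpos_of_nonneg_of_nonpos hfac hneg
      _ ≤ _ := hXc.trans hrhs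
  -- now `b < b₀`
  have hbb : b ≤ b₀ := by
    rw [hb₀, le_div_iff₀ (by linarith)]
    have h1 : (2 / π) * (1 + ε) * b < 1 := by linarith
    have h2 : (2 / π) * (1 + ε) * b * (π / 2) < 1 * (π / 2) :=
      mul_lt_mul_of_pos_right h1 (by positivity)
    have h3 : (2 / π) * (1 + ε) * b * (π / 2) = b * (1 + ε) := by
      field_simp
    linarith
  have hcc : cs ≤ c := Real.cos_le_cos_of_nonneg_of_le_pi hb0 (by linarith) hbb
  have hfac1 : (1 - (2 / π) * (1 + ε) * b) ≤ 1 := by
    have : 0 ≤ (2 / π) * (1 + ε) * b := by positivity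
    linarith
  have hLHS : (2 * m : ℝ) * ((X - c) / (X + c)) ^ m * (π ^ 2 / 4) *
      (1 - (2 / π) * (1 + ε) * b) ≤ (2 * m : ℝ) * ((X - c) / (X + c)) ^ m * (π ^ 2 / 4) := by
    calc _ ≤ (2 * m : ℝ) * ((X - c) / (X + c)) ^ m * (π ^ 2 / 4) * 1 :=
          mul_le_mul_of_nonneg_left hfac1 hfac
      _ = _ := mul_one _
  refine hLHS.trans ?_
  have hXcpos : 0 < X + c := by linarith
  rcases le_or_gt X X0 with hXX | hXX
  · -- bounded case
    have hr1 : (X - c) / (X + c) ≤ X - c := by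
      rw [div_le_iff₀ hXcpos]
      nlinarith
    have hr2 : (X - c) / (X + c) ≤ th := by
      have h1 : (X - c) / (X + c) = 1 - 2 * c / (X + c) := by
        field_simp
        ring
      rw [h1, hth]
      have h2 : 2 * cs / (X0 + 1) ≤ 2 * c / (X + c) := by
        apply div_le_div₀ (by linarith) (by linarith) hXcpos (by linarith)
      linarith
    have hpow : ((X - c) / (X + c)) ^ m ≤ (X - c) * th ^ m / th := by
      obtain ⟨k, rfl⟩ : ∃ k, m = k + 1 := ⟨m - 1, by omega⟩
      rw [pow_succ, pow_succ]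
      have h1 : (X - c) * (th ^ k * th) / th = th ^ k * (X - c) := by
        field_simp
      rw [h1]
      exact mul_le_mul (pow_le_pow_left₀ hr0 hr2 k) hr1 hr0 (by positivity)
    have hmth := hp₀ m hmp
    calc (2 * m : ℝ) * ((X - c) / (X + c)) ^ m * (π ^ 2 / 4)
        ≤ (2 * m : ℝ) * ((X - c) * th ^ m / th) * (π ^ 2 / 4) := by gcongr
      _ = (X - c) * ((m * th ^ m) * (π ^ 2 / 2) / th) := by ring
      _ ≤ (X - c) * ε := by
          apply mul_le_mul_of_nonneg_left _ (by linarith)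
          rw [div_le_iff₀ hth0]
          have h1 : (m * th ^ m) * (π ^ 2 / 2) ≤ (ε * th / (π ^ 2 / 2)) * (π ^ 2 / 2) :=
            mul_le_mul_of_nonneg_right hmth.le (by positivity)
          have h2 : (ε * th / (π ^ 2 / 2)) * (π ^ 2 / 2) = ε * th := by
            field_simp
          linarith
      _ = ε * (X - c) := by ring
      _ ≤ _ := hrhs
  · -- large case
    have hX2 : 2 ≤ X := by linarith
    have hXpos : 0 < X := by linarith
    have hexp : ((X - c) / (X + c)) ^ m ≤ Real.exp (-(cs * m / X)) := by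
      have h1 : (X - c) / (X + c) ≤ Real.exp (-(cs / X)) := by
        have h2 : (X - c) / (X + c) = 1 - 2 * c / (X + c) := by
          field_simp
          ring
        have h3 : cs / X ≤ 2 * c / (X + c) := by
          rw [div_le_div_iff₀ hXpos hXcpos]
          nlinarith
        have h4 := Real.add_one_le_exp (-(cs / X))
        rw [h2]
        linarith
      calc ((X - c) / (X + c)) ^ m ≤ (Real.exp (-(cs / X))) ^ m := pow_le_pow_left₀ hr0 h1 m
        _ = Real.exp (-(cs * m / X)) := by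
            rw [← Real.exp_nat_mul]
            congr 1
            ring
    have hte := P4aux_mul_exp (cs * m / X)
    have hlog : π ^ 2 / (ε * cs ^ 2) ≤ Real.log X := by
      have h1 : Real.log X0 ≤ Real.log X := Real.log_le_log (by linarith) hXX.le
      rw [hX0, Real.log_exp] at h1
      linarith
    have hlog' : π ^ 2 ≤ Real.log X * (ε * cs ^ 2) := by
      rwa [div_le_iff₀ (by positivity)] at hlog
    have hbig := P4aux_big (a := a) hX2
    have hsin : 0 ≤ Real.sin b := Real.sin_nonneg_of_nonneg_of_le_pi hb0 (by linarith)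
    have hlogX : 0 ≤ Real.log X := Real.log_nonneg hX1
    calc (2 * m : ℝ) * ((X - c) / (X + c)) ^ m * (π ^ 2 / 4)
        ≤ (2 * m : ℝ) * Real.exp (-(cs * m / X)) * (π ^ 2 / 4) := by gcongr
      _ = (cs * m / X * Real.exp (-(cs * m / X))) * (X / cs * (π ^ 2 / 2)) := by
          field_simp
          ring
      _ ≤ 1 * (X / cs * (π ^ 2 / 2)) := by
          apply mul_le_mul_of_nonneg_right hte (by positivity)
      _ ≤ ε * (Real.log X * (X / 2) * cs) := by
          rw [one_mul, div_mul_eq_mul_div, div_le_iff₀ hcs0]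
          nlinarith [mul_le_mul_of_nonneg_left hlog' (by linarith : (0:ℝ) ≤ X / 2)]
      _ ≤ ε * (a * Real.sinh a * c + b * X * Real.sin b) := by
          apply mul_le_mul_of_nonneg_left _ hε.le
          have h1 : Real.log X * (X / 2) * cs ≤ a * Real.sinh a * c := by
            apply mul_le_mul hbig hcc hcs0.le
            exact le_trans (by positivity) hbig
          have h2 : 0 ≤ b * X * Real.sin b := by positivity
          linarith

end Pool.Agent.H706R2.FM
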