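import Pool.Agent.H706R2.FM.Defs

/-!
# Stubs for the symmetric Mahler conjecture (MP_6fea95_gt)
-/

namespace Pool.Agent.H706R2.FM

open MeasureTheory Real Set Filter Topology
open scoped RealInnerProductSpace ENNReal Pointwise

/-! ## Planar part -/

/-- P1. Basic facts on `f`. -/
theorem P1_f : (∀ ζ ∈ Metric.ball (0:ℂ) 1, HasDerivAt fχ (gχ ζ) ζ) ∧
    (∀ ζ ∈ Metric.ball (0:ℂ) 1, DifferentiableAt ℂ gχ ζ) ∧
    (∀ ζ ∈ Metric.ball (0:ℂ) 1, ζ * gχ ζ = (4 / (π : ℂ) ^ 2) * sχ ζ) ∧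
    (∀ ζ ∈ Metric.ball (0:ℂ) 1, 0 < (gχ ζ).re) ∧
    (∀ ζ ∈ Metric.ball (0:ℂ) 1, ‖fχ ζ‖ < 1) ∧
    (∀ ζ : ℂ, fχ (starRingEnd ℂ ζ) = starRingEnd ℂ (fχ ζ)) ∧ fχ 0 = 0 ∧ gχ 0 = 8 / (π : ℂ) ^ 2 := by
  sorry

/-- P2. `f` is injective, `W = f(𝔻)` is open, the inverse function is holomorphic. -/
theorem P2_inv : InjOn fχ (Metric.ball 0 1) ∧ ∃ (W : Set ℂ) (q : ℂ → ℂ), Inv W q := by
  sorry

/-- P3. Signs of the imaginary parts. -/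
theorem P3_sign : (∀ ζ ∈ Metric.ball (0:ℂ) 1, 0 < ζ.im → 0 < (fχ ζ).im ∧ 0 < (sχ ζ).im ∧
      (sχ ζ).im < π / 2) ∧
    (∀ ζ ∈ Metric.ball (0:ℂ) 1, ζ.im = 0 → (fχ ζ).im = 0 ∧ (sχ ζ).im = 0) ∧
    (∀ ζ ∈ Metric.ball (0:ℂ) 1, ‖ζ‖ ^ 2 =
      (Real.cosh (sχ ζ).re - Real.cos (sχ ζ).im) / (Real.cosh (sχ ζ).re + Real.cos (sχ ζ).im)) ∧
    (∀ ζ ∈ Metric.ball (0:ℂ) 1, HasDerivAt sχ (2 / (1 - ζ ^ 2)) ζ) ∧
    (∀ ζ ∈ Metric.ball (0:ℂ) 1, 2 * ζ / (1 - ζ ^ 2) = Complex.sinh (sχ ζ)) := by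
  sorry

/-- P4. The scalar inequality. -/
theorem P4_scalar (ε : ℝ) (hε : 0 < ε) : ∃ p₀ : ℕ, ∀ m : ℕ, p₀ ≤ m → ∀ a b : ℝ, 0 ≤ b →
    b ≤ π / 2 →
    (2 * m : ℝ) * ((Real.cosh a - Real.cos b) / (Real.cosh a + Real.cos b)) ^ m * (π ^ 2 / 4) *
        (1 - (2 / π) * (1 + ε) * b)
      ≤ ε * (a * Real.sinh a * Real.cos b + b * Real.cosh a * Real.sin b) := by
  sorry

/-- P5. `W` is vertically convex, symmetric etc. -/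
theorem P5_dom {W : Set ℂ} {q : ℂ → ℂ} (h : Inv W q) : Dom W ∧
    (∀ w ∈ W, starRingEnd ℂ w ∈ W ∧ q (starRingEnd ℂ w) = starRingEnd ℂ (q w)) ∧
    (∀ w ∈ W, (0 < w.im → 0 < (q w).im) ∧ (w.im = 0 → (q w).im = 0)) := by
  sorry

/-- P6. Along vertical segments in the upper half of `W`: derivative inequality. -/
theorem P6_deriv {W : Set ℂ} {q : ℂ → ℂ} (h : Inv W q) (ε : ℝ) (hε : 0 < ε) :
    ∃ p₀ : ℕ, ∀ m : ℕ, p₀ ≤ m → ∀ w ∈ W, 0 < w.im →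
      ρq q (2 * m) w ≤ (π / 2) * (2 * m : ℝ) * (1 + ε) * Ruq q (2 * m) w
        + ε * (2 * m : ℝ) * ((2 / (1 - (q w) ^ 2)) * deriv q w).re := by
  sorry

/-- P7. The vertical bound. -/
theorem P7_vbound {W : Set ℂ} {q : ℂ → ℂ} (h : Inv W q) (ε : ℝ) (hε : 0 < ε) :
    ∃ p₀ : ℕ, ∀ m : ℕ, p₀ ≤ m → VBound W (Rq q (2 * m)) (ρq q (2 * m)) (2 * m) ε := by
  sorry

/-- P8. `|q|^p` is a potential. -/
theorem P8_pot {W : Set ℂ} {q : ℂ → ℂ} (h : Inv W q) (m : ℕ) (hm : 2 ≤ m) :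
    Pot W (2 * m) (‖deriv q 0‖ ^ (2 * m)) (Rq q (2 * m)) (Rxq q (2 * m)) (Ruq q (2 * m))
      (ρq q (2 * m)) := by
  sorry

/-! ## Part in dimension `n` -/

section
variable {n N : ℕ} {W : Set ℂ} {p : Fin N → ℕ} {κ : Fin N → ℝ} {R Rx Ru ρ : Fin N → ℂ → ℝ}
  {l : Fin N → E n}

/-- A0. Compactness, openness, continuity. -/
theorem A0_basic (D : Data W p κ R Rx Ru ρ l) :
    IsOpen (Om W l) ∧ (∀ C < 1, IsCompact {z | z ∈ Om W l ∧ GG R l z ≤ C}) ∧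
    ContinuousOn (GG R l) (Om W l) ∧ ContinuousOn (DD ρ l) (Om W l) ∧
    (∀ z ∈ Om W l, 0 ≤ GG R l z) ∧ (∀ z ∈ Om W l, 0 ≤ DD ρ l z) ∧
    MeasurableSet (Om W l) ∧ (∀ C, MeasurableSet {z | z ∈ Om W l ∧ GG R l z < C}) ∧
    (∀ C < 1, IntegrableOn (DD ρ l) {z | z ∈ Om W l ∧ GG R l z ≤ C}) := by
  sorry

/-- A1. Integration by parts `(N')`. -/
theorem A1_ibp {m N : ℕ} {W : Set ℂ} {p : Fin N → ℕ} {κ : Fin N → ℝ}
    {R Rx Ru ρ : Fin N → ℂ → ℝ} {l : Fin N → E (m + 1)} (D : Data W p κ R Rx Ru ρ l)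
    (β : ℝ → ℝ) (hβ : ContDiff ℝ 1 β) {C : ℝ} (hC : C < 1) (hβ0 : ∀ t, C ≤ t → β t = 0) :
    ∫ z in Om W l, (β (GG R l z) * DD ρ l z + deriv β (GG R l z) * TT Rx Ru ρ l z) = 0 := by
  sorry

/-- A2. The linear algebra inequality `T ≤ G D / n`. -/
theorem A2_alg {m N : ℕ} (l : Fin N → Fin (m + 1) → ℝ) (R a b ρ : Fin N → ℝ)
    (hR : ∀ i, 0 ≤ R i) (hρ : ∀ i, 0 ≤ ρ i) (hcs : ∀ i, a i ^ 2 + b i ^ 2 ≤ R i * ρ i) :
    (m + 1 : ℝ) * (∑ I : Fin (m + 1) → Fin N, (∏ k ∈ Finset.univ.erase 0, ρ (I k)) *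
        (Matrix.of fun k j => l (I k) j).det *
        (a (I 0) * ((Matrix.of fun k j => l (I k) j).updateRow 0
            (fun j => ∑ i, a i * l i j)).det +
          b (I 0) * ((Matrix.of fun k j => l (I k) j).updateRow 0
            (fun j => ∑ i, b i * l i j)).det))
      ≤ (∑ i, R i) * ∑ I : Fin (m + 1) → Fin N,
          (Matrix.of fun k j => l (I k) j).det ^ 2 * ∏ k, ρ (I k) := by
  sorry

/-- A3. The mass inequality, from A0, A1, A2. -/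
theorem A3_mono {m N : ℕ} {W : Set ℂ} {p : Fin N → ℕ} {κ : Fin N → ℝ}
    {R Rx Ru ρ : Fin N → ℂ → ℝ} {l : Fin N → E (m + 1)} (D : Data W p κ R Rx Ru ρ l)
    {C C' ε : ℝ} (hε : 0 < ε) (hC' : 0 < C') (hCC : C' < C) (hC : C < 1) :
    ε * (∫ z in {z | z ∈ Om W l ∧ GG R l z < C}, DD ρ l z / (GG R l z + ε) ^ (m + 2)) ≤
      (∫ z in {z | z ∈ Om W l ∧ GG R l z < C}, DD ρ l z) / (C' + ε) ^ (m + 1) := by
  sorry

/-- A4a. `n! det (∑ ρ_i l_i l_iᵀ)` is the sum over tuples (Cauchy–Binet). -/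
theorem A4a_cauchyBinet (l : Fin N → Fin n → ℝ) (ρ : Fin N → ℝ) :
    ∑ I : Fin n → Fin N, (Matrix.of fun k j => l (I k) j).det ^ 2 * ∏ k, ρ (I k) =
      n.factorial * (∑ i, ρ i • Matrix.vecMulVec (l i) (l i)).det := by
  sorry

/-- A4b. Change of variables for fixed `x`: strictly monotone map in `u`. `e i` are strictly
increasing functions of one variable on sets `J i` (think: `e_i(⟪l_i,x⟫, ·)`). -/
theorem A4b_slice (l : Fin N → E n) (hspan : Submodule.span ℝ (range l) = ⊤)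
    (U : Set (E n)) (hU : MeasurableSet U) (J : Fin N → Set ℝ)
    (hUJ : ∀ u ∈ U, ∀ i, ⟪l i, u⟫ ∈ J i) (e r : Fin N → ℝ → ℝ)
    (he : ∀ i, ∀ t ∈ J i, HasDerivAt (e i) (r i t) t)
    (hmono : ∀ i, StrictMonoOn (e i) (J i))
    (hr : ∀ i, ∀ t ∈ J i, 0 ≤ r i t)
    (Q : Set (E n)) (hQ : Convex ℝ Q) (hQ0 : (0 : E n) ∈ Q) (hQs : ∀ y ∈ Q, -y ∈ Q)
    (hl : ∀ i, l i ∈ Q)
    {lam : ℝ} (hlam : 0 < lam) (hsum : ∀ u ∈ U, ∑ i, |e i ⟪l i, u⟫| ≤ lam) :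
    ∫⁻ u in U, ENNReal.ofReal
        (∑ i, r i ⟪l i, u⟫ • Matrix.vecMulVec (fun j => l i j) (fun j => l i j)).det
      ≤ ENNReal.ofReal (lam ^ n) * volume Q := by
  sorry

/-- A4. The real side, from A0, A4a, A4b. -/
theorem A4_real (D : Data W p κ R Rx Ru ρ l) (Q : Set (E n)) (hQ : Convex ℝ Q)
    (hQ0 : (0 : E n) ∈ Q) (hQs : ∀ y ∈ Q, -y ∈ Q) (hl : ∀ i, l i ∈ Q) {ε lam : ℝ} (hε : 0 < ε) (hlam : 0 < lam)
    (hV : ∀ i, VBound W (R i) (ρ i) (p i) ε) (hp : ∀ i, (π / 2) * p i ≤ lam) :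
    ∫⁻ z in {z | z ∈ Om W l ∧ GG R l z < 1}, ENNReal.ofReal (DD ρ l z) ≤
      ENNReal.ofReal (n.factorial * (lam * (1 + ε + N * ε)) ^ n) *
        (volume {x : E n | ∀ i, |⟪l i, x⟫| ≤ 1} * volume Q) := by
  sorry

/-- A6. The model integral. -/
theorem A6_model (n p : ℕ) (hp : 2 ≤ p) (κ : Fin n → ℝ) (hκ : ∀ k, 0 < κ k) :
    ∫⁻ w : Fin n → ℂ, ENNReal.ofReal
        ((∏ k, ((p : ℝ) ^ 2 * κ k * ‖w k‖ ^ (p - 2))) / (1 + ∑ k, κ k * ‖w k‖ ^ p) ^ (n + 1))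
      = ENNReal.ofReal ((2 * π * p) ^ n / n.factorial) := by
  sorry

/-- A6b. Linear change of variables `z ↦ (w_{e k}(z))_k`. -/
theorem A6b_linear (l : Fin N → E n) (e : Fin n → Fin N) (hdet : (Mx l e).det ≠ 0)
    (F : (Fin n → ℂ) → ℝ≥0∞) (hF : Measurable F) :
    ∫⁻ z : V n, F (fun k => wc (l (e k)) z) * ENNReal.ofReal ((Mx l e).det ^ 2) =
      ∫⁻ w : Fin n → ℂ, F w := by
  sorry

/-- A5. The limit `ε → 0` (scaling and Fatou), from A0, A6, A6b. -/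
theorem A5_limit (D : Data W p κ R Rx Ru ρ l) (e : Fin n → Fin N) (he : Function.Injective e)
    (hdet : (Mx l e).det ≠ 0) {p₀ : ℕ} (hpe : ∀ k, p (e k) = p₀)
    (hpo : ∀ i, i ∉ range e → p₀ < p i) {C : ℝ} (hC : 0 < C) :
    ENNReal.ofReal ((2 * π * p₀) ^ n) ≤
      liminf (fun ε : ℝ => ∫⁻ z in {z | z ∈ Om W l ∧ GG R l z < C},
        ENNReal.ofReal (ε * DD ρ l z / (GG R l z + ε) ^ (n + 1))) (𝓝[>] 0) := by
  sorry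

/-- A8. From A3, A4, A5: the inequality for given data. -/
theorem A8_ineq {m N : ℕ} {W : Set ℂ} {p : Fin N → ℕ} {κ : Fin N → ℝ}
    {R Rx Ru ρ : Fin N → ℂ → ℝ} {l : Fin N → E (m + 1)} (D : Data W p κ R Rx Ru ρ l)
    (e : Fin (m + 1) → Fin N) (he : Function.Injective e)
    (hdet : (Mx l e).det ≠ 0) {p₀ : ℕ} (hpe : ∀ k, p (e k) = p₀)
    (hpo : ∀ i, i ∉ range e → p₀ < p i)
    (Q : Set (E (m + 1))) (hQ : Convex ℝ Q) (hQ0 : (0 : E (m + 1)) ∈ Q)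
    (hQs : ∀ y ∈ Q, -y ∈ Q) (hl : ∀ i, l i ∈ Q) {ε lam : ℝ} (hε : 0 < ε) (hlam : 0 < lam)
    (hV : ∀ i, VBound W (R i) (ρ i) (p i) ε) (hp : ∀ i, (π / 2) * p i ≤ lam) :
    ENNReal.ofReal ((2 * π * p₀) ^ (m + 1)) ≤
      ENNReal.ofReal ((m + 1).factorial * (lam * (1 + ε + N * ε)) ^ (m + 1)) *
        (volume {x : E (m + 1) | ∀ i, |⟪l i, x⟫| ≤ 1} * volume Q) := by
  sorry

end

/-- A7. Approximation of a symmetric body by finitely many slabs. -/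
theorem A7_family {n : ℕ} (K : Set (E n)) (hK : Convex ℝ K) (hc : IsCompact K)
    (h0 : K ∈ 𝓝 (0 : E n)) (hs : ∀ x ∈ K, -x ∈ K) {δ : ℝ} (hδ : 0 < δ) :
    ∃ (N : ℕ) (l : Fin N → E n) (e : Fin n → Fin N), Function.Injective e ∧
      (Mx l e).det ≠ 0 ∧ Submodule.span ℝ (range l) = ⊤ ∧ (∀ i, l i ∈ polar K) ∧
      {x : E n | ∀ i, |⟪l i, x⟫| ≤ 1} ⊆ (1 + δ) • K := by
  sorry

/-- A9. The symmetric Mahler conjecture. -/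
theorem A9_mahler (n : ℕ) (K : Set (E n)) (hK : Convex ℝ K) (hc : IsCompact K)
    (hi : (interior K).Nonempty) (hs : ∀ x ∈ K, -x ∈ K) :
    ENNReal.ofReal ((4 : ℝ) ^ n / n.factorial) ≤ volume K * volume (polar K) := by
  sorry

end Pool.Agent.H706R2.FM
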